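import Pool.Agent.MP_c69980_ag.H43.Spec7
import Pool.Agent.MP_c69980_ag.H71.Affine
import Pool.Agent.MP_c69980_ag.H48.Through
import Pool.Agent.MP_c69980_ag.H44.Model

/-!
Reduction of the finiteness of pointed maps to smooth curves.
-/

set_option autoImplicit false

namespace Pool.Agent.MP_c69980_ag.H43

open MvPolynomial H60

theorem sRedC : SRedC := by
  intro n r Y y f hY hf hinj hy
  have hnt : Y.Nontrivial := by
    by_contra hs
    rw [Set.not_nontrivial_iff] at hs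
    refine zero_ne_one (hinj (funext fun P => ?_))
    rw [show P = y from Subtype.ext (hs P.2 y.2), hy 0 1]
  have hsep : ∀ k : ℕ, ∃ (g : MvPolynomial (Fin r) ℂ) (e : ℕ), g.IsHomogeneous e ∧
      (∃ P ∈ Y, eval P.rep g ≠ 0) ∧ ∀ Q : Y, eval Q.1.rep g ≠ 0 → k.unpair.1 ≠ k.unpair.2 →
        f k.unpair.1 Q ≠ f k.unpair.2 Q := fun k => by
    by_cases hk : k.unpair.1 = k.unpair.2
    · exact ⟨1, 0, isHomogeneous_one _ _, ⟨y, y.2, by simp⟩, fun _ _ h => (h hk).elim⟩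
    · obtain ⟨g, e, h1, h2, h3⟩ := H71.exists_sep (hf _) (hf _) fun h => hk (hinj h)
      exact ⟨g, e, h1, h2, fun Q hQ _ => h3 Q hQ⟩
  choose g e hg hg0 hgs using hsep
  obtain ⟨B, _, _, t, b, χ₀, h, hB, hbY, hby, hbg⟩ := H48.through r Y hY hnt y y.2 g e hg hg0
  obtain ⟨h0, N, C, K, _, _, s, pt, hC, hs, htr, hreg, hmor, -⟩ := H44.model B t hB
  let ι : (B →ₐ[ℂ] ℂ) → Y := fun χ => ⟨_, hbY χ⟩
  refine ⟨N, C, K, inferInstance, inferInstance, s, fun P => ι (pt.symm P), pt χ₀,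
    ⟨hC, hs, htr, hreg⟩, ?_, fun j => ?_, fun j k hjk => ?_⟩
  · exact (congrArg ι (pt.symm_apply_apply χ₀)).trans (Subtype.ext hby)
  · exact Pool.Agent.MP_c4d8e2_ag.H71.IsMor.comp (g := f j) (f := fun P => ι (pt.symm P)) (hf j)
      (hmor r b h)
  · by_contra hne
    obtain ⟨χ, hχ⟩ := h0 _ (hbg (Nat.pair j k))
    rw [comp_aeval_apply, aeval_eq_eval, Ne,
      ← Pool.Agent.MP_c4d8e2_ag.H71.eval_rep_mk (hg _) _ (h χ)] at hχ
    have := hgs (Nat.pair j k) (ι χ) hχ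
    simp only [Nat.unpair_pair] at this
    refine this hne ?_
    simpa using congrFun hjk (pt χ)

end Pool.Agent.MP_c69980_ag.H43
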