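import Pool.Agent.MP_c69980_ag.H43.Spec7

/-!
Condition 4 implies condition 5: assembly.
-/

set_option autoImplicit false

namespace Pool.Agent.MP_c69980_ag.H43

open MvPolynomial H60 Finset Filter

lemma A1_biH {ι κ : Type} {F : MvPolynomial κ ℂ} {d : ℕ} (hF : F.IsHomogeneous d) :
    BiH (rename (Sum.inr : κ → ι ⊕ κ) F) 0 d := by
  classical
  intro m hm
  obtain ⟨m', rfl, h⟩ := coeff_rename_ne_zero _ _ _ hm
  have h1 := hF h
  rw [Finsupp.weight_apply, Finsupp.sum_mapDomain_index_inj Sum.inr_injective]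
  rw [Finsupp.weight_apply] at h1
  refine Prod.ext ?_ ?_
  · simp [Finsupp.sum, Prod.fst_sum]
  · simpa [Finsupp.sum, Prod.snd_sum] using h1

lemma A1_rel {ι κ K A : Type} [CommRing K] [Algebra ℂ K] [CommRing A] [Algebra ℂ A] {z : ι → K}
    {u : κ → K} {z' : ι → A} {u' : κ → A} (h : Rel z u z' u') {F : MvPolynomial κ ℂ} {d : ℕ}
    (hF : F.IsHomogeneous d) (h0 : aeval u F = 0) : aeval u' F = 0 := by
  have := h _ 0 d (A1_biH hF) (by rw [aeval_rename]; exact h0)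
  rwa [aeval_rename] at this

lemma A1_deg {L : Type} [Field L] [Algebra ℂ L] {D : Derivation ℂ L L} {S : Finset (Pl L)}
    {m : Pl L → ℤ} {χ : ℕ} (h : CD D S m χ) {g : L} (h1 : ∀ P, g = 0 ∨ -m P ≤ P.ord g)
    (h2 : ∀ P ∉ S, g ∈ P.V) : deg g ≤ χ ^ 2 := by
  classical
  refine h.ff.deg_le g fun T => ?_
  have e : ∀ P ∈ T, lam P g ≤ if P ∈ S then χ else 0 := fun P _ => by
    split_ifs with hP
    · rcases h1 P with rfl | h3
      · simp [lam_zero]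
      · have := h.le P
        simp only [lam]
        omega
    · exact ((h.ff.lam_eq_zero P g).2 (h2 P hP)).le
  refine (sum_le_sum e).trans ?_
  rw [sum_ite_mem, sum_const, smul_eq_mul, sq]
  exact Nat.mul_le_mul_right _ ((card_le_card inter_subset_right).trans h.card)

lemma A1_enum {M : ℕ} {K : Type} [Field K] [Algebra ℂ K] (u : Fin M → K) {k : Subfield ℂ}
    (hk : Countable k) : ∃ (F : ℕ → PR M) (d : ℕ → ℕ), (∀ i, (F i).IsHomogeneous (d i) ∧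
      aeval u (F i) ≠ 0) ∧ ∀ (G : PR M) (e : ℕ), G.IsHomogeneous e → Cf k G → aeval u G ≠ 0 →
        ∃ i, F i = G := by
  have : Countable (MvPolynomial (Fin M) k) :=
    Function.Injective.countable (f := fun P => (AddMonoidAlgebra.coeff P : (Fin M →₀ ℕ) →₀ k))
      AddMonoidAlgebra.coeff_injective
  obtain ⟨φ, hφ⟩ := exists_surjective_nat (MvPolynomial (Fin M) k × ℕ)
  have : ∀ i, ∃ (F : PR M) (d : ℕ), (F.IsHomogeneous d ∧ aeval u F ≠ 0) ∧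
      ((map k.subtype (φ i).1).IsHomogeneous (φ i).2 → aeval u (map k.subtype (φ i).1) ≠ 0 →
        F = map k.subtype (φ i).1) := fun i => by
    by_cases h : (map k.subtype (φ i).1).IsHomogeneous (φ i).2 ∧
        aeval u (map k.subtype (φ i).1) ≠ 0
    · exact ⟨_, _, h, fun _ _ => rfl⟩
    · exact ⟨1, 0, ⟨isHomogeneous_one _ _, by simp⟩, fun a b => absurd ⟨a, b⟩ h⟩
  choose F d h1 h2 using this
  refine ⟨F, d, h1, fun G e a b c => ?_⟩
  obtain ⟨G', rfl⟩ := cf_iff.1 b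
  obtain ⟨i, hi⟩ := hφ (G', e)
  have := h2 i
  rw [hi] at this
  exact ⟨i, this a c⟩

theorem sA1 (h1 : SKl) (h2 : SKalg) (h3 : SCoreF) (h4 : SBadF) (h5 : SPull) (h6 : SCv1) (h7 : SCd)
    (h8 : SVelF) (h9 : SHtBd) (h10 : SRelK) : SA1 := by
  intro t a M n w Θ PP K _ _ U z u gd gk h hG
  by_contra hn
  obtain ⟨κ, J, γ, E, γ₀, b₀, Q₀, kl⟩ := h1 _ _ _ _ w Θ PP K U z u gd h hG
  obtain ⟨k, k0, g2, hκ, hK⟩ := (gd.and (h2 _ _ _ _ w Θ PP K U z u κ J γ E γ₀ b₀ Q₀ gd h kl)).exists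
  have rk := h10 _ _ _ _ w Θ K U z u h
  obtain ⟨R₁, e₁, a1, a2, a3⟩ := h4 _ _ _ _ w Θ PP K U z u κ J γ E γ₀ b₀ Q₀ h kl
  obtain ⟨R₂, e₂, C₀, b1, b2, b3⟩ := rk.cmp
  obtain ⟨F, d, hF, hF'⟩ := A1_enum u k0
  choose R₃ e₃ c1 c2 c3 using fun i => rk.form (F i) (d i) (hF i).1 (hF i).2
  have key : ∀ N : ℕ, ∃ (L : Type) (_ : Field L) (_ : Algebra ℂ L) (D : Derivation ℂ L L)
      (S : Finset (Pl L)) (m : Pl L → ℤ) (χ : ℕ) (y : Fin M → L) (g : Fin (t + a) → L) (γ' : L),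
      CD D S m χ ∧ OnG w Θ y ∧ Vel w PP D y g ∧ (∀ i, deg (g i) ≤ χ ^ 2) ∧
      N * (χ ^ 2 + 1) ≤ ht y ∧ GFF w κ S y γ' ∧
      (∀ (G : PR M) (e : ℕ), G.IsHomogeneous e → aeval u G = 0 → aeval y G = 0) ∧
      ∀ i < N, aeval y (F i) ≠ 0 := fun N => by
    classical
    have hR := (a1.mul b1).mul (IsHomogeneous.prod (range N) R₃ e₃ fun i _ => c1 i)
    set R := R₁ * R₂ * ∏ i ∈ range N, R₃ i with eR
    have R0 : aeval z R ≠ 0 := by
      rw [eR, map_mul, map_mul, map_prod]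
      exact mul_ne_zero (mul_ne_zero a2 b2) (prod_ne_zero_iff.2 fun i _ => c2 i)
    have hn' := hn
    simp only [H4.PseudoBdd, not_exists, not_and, not_forall] at hn'
    obtain ⟨r, C, L, _, _, v, v1, v2, v3, v4, hb⟩ := hn' {P | eval P.rep R = 0}
      ⟨{R}, by simpa using ⟨_, hR⟩, by simp⟩ fun hs => R0 ((h.gen.1 _ _ hR).2 hs)
    obtain ⟨pl, cv⟩ := h6 r C L v ⟨v1, v2, v3, v4⟩
    obtain ⟨c₀, hc₀⟩ := v1.1.1
    obtain ⟨D, S, m, χ, cd, hS, -⟩ := h7 L cv.ff cv.cof.toFinset (pl ⟨c₀, hc₀⟩) (by simp)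
    have hS' : ∀ P ∉ S, P ∈ Set.range pl := fun P hP => by_contra fun q => hP (hS (by simpa using q))
    obtain ⟨f, f1, f2, f3, l, l1, l2⟩ := hb (C₀ * (N * (χ ^ 2 + 1)))
    obtain ⟨z', hz'⟩ := (cv.mor n f).1 f1
    obtain ⟨y, y1, y2, y3⟩ := h5 _ _ _ _ w Θ K U z u r C L v pl f z' h cv f2 hz' ⟨c₀, hc₀⟩
    obtain ⟨t1, -, t3⟩ := h9 r n C L v pl f z' cv hz'
    have z0 : aeval z' R ≠ 0 := (t3 R _ hR).2 (by
      obtain ⟨_, ⟨c, rfl⟩, hc⟩ := Set.not_subset.1 f3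
      exact ⟨c, hc⟩)
    rw [eR, map_mul, map_mul, map_prod, mul_ne_zero_iff, mul_ne_zero_iff, prod_ne_zero_iff] at z0
    have y0 : y ≠ 0 := fun q => by
      obtain ⟨b, -, hb⟩ := y1.blk none
      exact hb (congrFun q b)
    obtain ⟨g, g1, g2⟩ := h8 _ _ _ w Θ PP L D S m χ y gk cd y1
    obtain ⟨γ', hγ⟩ := a3 r C L v pl f z' y cv f2 hz' y2 (fun c => (y3 c).1) z0.1.1
    refine ⟨L, inferInstance, inferInstance, D, S, m, χ, y, g, γ', cd, y1, g1,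
      fun i => A1_deg cd (fun P => (g2 P i).1) fun P hP => (g2 P i).2 hP ?_, ?_,
      ⟨hγ.ne, hγ.eq, fun P hP => hγ.bad P fun q => q (hS' P hP)⟩,
      fun G e p q => A1_rel y2 p q, fun i hi => c3 i L z' y y2 y0 (z0.2 i (mem_range.2 hi))⟩
    · obtain ⟨c, rfl⟩ := hS' P hP
      exact (y3 c).1
    · have q1 : C₀ * (N * (χ ^ 2 + 1)) < ht z' := by
        exact_mod_cast (not_le.1 l2).trans_le (t1 l l1)
      exact (Nat.lt_of_mul_lt_mul_left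
        (q1.trans_le ((b3 L cv.ff y y0).1 z' y2 z0.1.2).1)).le
  choose L _ _ D S m χ y g γ' p1 p2 p3 p4 p5 p6 p7 p8 using key
  have hU : ∀ N : ℕ, ∀ᶠ j in (hyperfilter ℕ : Ultrafilter ℕ), N ≤ j := fun N =>
    Nat.hyperfilter_le_atTop (eventually_ge_atTop N)
  refine h3 _ _ _ w Θ PP k κ {G | aeval u G = 0} L (hyperfilter ℕ) D S m χ y g γ' g2 k0 hκ hK
    ⟨p1, p2, p3, p4, fun N => (hU N).mono fun j hj => ?_⟩ p6 fun G e a b =>
      ⟨fun c j => p7 j G e a c, fun c => ?_⟩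
  · exact (Nat.mul_le_mul_right _ hj).trans (p5 j)
  · obtain ⟨i, rfl⟩ := hF' G e a b c
    exact (hU (i + 1)).mono fun j hj => p8 j i hj

end Pool.Agent.MP_c69980_ag.H43
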