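import Pool.Agent.MP_c69980_ag.H43.Spec7

/-!
Derivations of the constants act on the function field.
-/

set_option autoImplicit false

namespace Pool.Agent.MP_c69980_ag.H43

open H60 Polynomial

variable {L : Type} [Field L]

/-- A derivation that kills the coefficients of a polynomial kills its roots. -/
lemma DerL_root [CharZero L] (δ : Derivation ℚ L L) {x : L} (n : ℕ) : ∀ p : L[X], p ≠ 0 →
    p.natDegree = n → (∀ i, δ (p.coeff i) = 0) → p.eval x = 0 → δ x = 0 := by
  induction n using Nat.strong_induction_on with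
  | _ n ih =>
    intro p h0 hn hc hx
    have hd : p.natDegree ≠ 0 := fun h => by
      rw [eq_C_of_natDegree_eq_zero h, eval_C] at hx
      exact h0 (by rw [eq_C_of_natDegree_eq_zero h, hx, C_0])
    have key : δ (p.eval x) = p.derivative.eval x * δ x := by
      rw [derivative_eval, eval_eq_sum, Polynomial.sum, Polynomial.sum, map_sum, Finset.sum_mul]
      refine Finset.sum_congr rfl fun i _ => ?_
      rw [Derivation.leibniz, hc, Derivation.leibniz_pow]
      simp only [smul_eq_mul, nsmul_eq_mul, mul_zero, add_zero]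
      ring
    rw [hx, map_zero] at key
    rcases mul_eq_zero.1 key.symm with h | h
    · refine ih _ (hn ▸ natDegree_derivative_lt hd) p.derivative
        (fun e => hd (derivative_eq_zero.1 e)) rfl (fun i => ?_) h
      rw [coeff_derivative, Derivation.leibniz, hc]
      have : δ ((i : L) + 1) = 0 := by simp
      rw [this]
      simp
    · exact h

variable [Algebra ℂ L] [CharZero L]

/-- `x` is killed by all the derivations that kill `s₀` and countably many constants. -/
def DerLG (s₀ x : L) : Prop :=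
  ∃ s : Set ℂ, s.Countable ∧ ∀ δ : Derivation ℚ L L, δ s₀ = 0 →
    (∀ c ∈ s, δ (algebraMap ℂ L c) = 0) → δ x = 0

lemma DerL_all {s₀ : L} {κ : Type} [Countable κ] {x : κ → L} (h : ∀ i, DerLG s₀ (x i)) :
    ∃ s : Set ℂ, s.Countable ∧ ∀ δ : Derivation ℚ L L, δ s₀ = 0 →
      (∀ c ∈ s, δ (algebraMap ℂ L c) = 0) → ∀ i, δ (x i) = 0 := by
  choose s h1 h2 using h
  exact ⟨⋃ i, s i, Set.countable_iUnion h1, fun δ a b i =>
    h2 i δ a fun c hc => b c (Set.mem_iUnion.2 ⟨i, hc⟩)⟩

lemma DerL_adj {s₀ x : L} (hx : x ∈ Algebra.adjoin ℂ {s₀}) : DerLG s₀ x := by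
  induction hx using Algebra.adjoin_induction with
  | mem u h => exact ⟨∅, Set.countable_empty, fun δ a _ => by rw [h]; exact a⟩
  | algebraMap c => exact ⟨{c}, Set.countable_singleton c, fun δ _ b => b c rfl⟩
  | add u v _ _ a b =>
    obtain ⟨s, h1, h2⟩ := a
    obtain ⟨s', h3, h4⟩ := b
    exact ⟨s ∪ s', h1.union h3, fun δ a b => by
      rw [map_add, h2 δ a fun c hc => b c (Or.inl hc), h4 δ a fun c hc => b c (Or.inr hc),
        add_zero]⟩
  | mul u v _ _ a b =>
    obtain ⟨s, h1, h2⟩ := a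
    obtain ⟨s', h3, h4⟩ := b
    exact ⟨s ∪ s', h1.union h3, fun δ a b => by
      rw [Derivation.leibniz, h2 δ a fun c hc => b c (Or.inl hc),
        h4 δ a fun c hc => b c (Or.inr hc), smul_zero, smul_zero, add_zero]⟩

lemma DerL_alg {s₀ x : L} (hx : IsAlgebraic (Algebra.adjoin ℂ {s₀}) x) : DerLG s₀ x := by
  obtain ⟨p, h0, hp⟩ := hx
  obtain ⟨s, h1, h2⟩ := DerL_all (s₀ := s₀) (x := fun i : ℕ => (p.coeff i : L))
    fun i => DerL_adj (p.coeff i).2
  refine ⟨s, h1, fun δ a b => DerL_root δ _ (p.map (algebraMap _ L))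
    ((Polynomial.map_ne_zero_iff Subtype.val_injective).2 h0) rfl (fun i => ?_) ?_⟩
  · rw [coeff_map]
    exact h2 δ a b i
  · rw [eval_map_algebraMap, hp]

omit [CharZero L] in
theorem sDerL : SDerL := by
  intro L _ _ D S m χ h T hT
  have : CharZero L := charZero_of_injective_algebraMap (algebraMap ℂ L).injective
  obtain ⟨s₀, hs₀⟩ := h.par
  have htr : Transcendental ℂ s₀ := by
    rcases Pool.Agent.MP_f3836a_nt.PK.PlB.const_or (k := ℂ) s₀ with ⟨a, rfl⟩ | h1
    · simp at hs₀
    · exact h1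
  have hfd := h.ff.b.fd s₀ htr
  have halg : Algebra.IsAlgebraic (Algebra.adjoin ℂ {s₀}) L :=
    IntermediateField.isAlgebraic_adjoin_iff_top.1 inferInstance
  have hb1 : IsTranscendenceBasis ℂ fun _ : Unit => s₀ := by
    rw [(algebraicIndependent_unique_type_iff.2 htr).isTranscendenceBasis_iff_isAlgebraic,
      Set.range_const]
    exact halg
  obtain ⟨B, hB⟩ := exists_isTranscendenceBasis ℚ ℂ
  have hb := hB.sumElim_comp hb1
  have : Countable T := hT
  obtain ⟨s, h1, h2⟩ := DerL_all (s₀ := s₀) (x := fun x : T => (x : L))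
    fun x => DerL_alg (halg.isAlgebraic _)
  refine ⟨s, h1, fun d hd => ?_⟩
  obtain ⟨E, hE⟩ := der_exists (M := L) hb
    (Sum.elim (fun _ => 0) fun b : B => algebraMap ℂ L (d b))
  have e0 : E s₀ = 0 := hE (.inl ())
  have e1 : ∀ c, E (algebraMap ℂ L c) = algebraMap ℂ L (d c) := fun c => by
    have := der_ext (M := L) hB (E := E.compAlgebraMap ℂ)
      (E' := (Algebra.linearMap ℂ L).compDer d) fun b => hE (.inr b)
    exact DFunLike.congr_fun this c
  have e2 : ⁅E, D.restrictScalars ℚ⁆ = 0 := by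
    refine der_ext (M := L) hb ?_
    rintro (u | b)
    · simp [Derivation.commutator_apply, e0, hs₀]
    · simp [Derivation.commutator_apply, e1]
  refine ⟨E.restrictScalars ℤ, e1, fun x hx => h2 E e0 (fun c hc => ?_) ⟨x, hx⟩, fun x => ?_⟩
  · rw [e1, hd c hc, map_zero]
  · have := DFunLike.congr_fun e2 x
    rw [Derivation.commutator_apply] at this
    exact sub_eq_zero.1 this

end Pool.Agent.MP_c69980_ag.H43
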